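import Pool.Agent.MP_9c356a_lc.Quad

set_option autoImplicit false

namespace Pool.Agent.Results.MP_9c356a_lc.QuadraticDepth

open Pool.Agent.MP_9c356a_lc.Quad

/-- The morphism of the family on the alphabet `Fin n`. -/
def hF (P : Par) (h0 : 0 < P.n) (i : Fin P.n) : List (Fin P.n) :=
  (g P i).map fun j => ⟨j % P.n, Nat.mod_lt _ h0⟩

theorem val_hF (P : Par) (h0 : 0 < P.n) (u : List (Fin P.n)) :
    (u.flatMap (hF P h0)).map Fin.val = G P (u.map Fin.val) := by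
  induction u with
  | nil => rfl
  | cons z u ih =>
    rw [List.flatMap_cons, List.map_append, ih, List.map_cons, G_cons, hF, List.map_map]
    congr 1
    conv_rhs => rw [← List.map_id (g P z)]
    exact List.map_congr_left fun j hj => Nat.mod_eq_of_lt (g_lt P _ _ z.2 hj)

theorem val_iter (P : Par) (h0 : 0 < P.n) (k : ℕ) (u : List (Fin P.n)) :
    ((fun u : List (Fin P.n) => u.flatMap (hF P h0))^[k] u).map Fin.val =
      (G P)^[k] (u.map Fin.val) := by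
  induction k with
  | zero => rfl
  | succ k ih => rw [Function.iterate_succ_apply', Function.iterate_succ_apply', val_hF, ih]

theorem main (P : Par) : ∃ (h : Fin P.n → List (Fin P.n)) (w : List (Fin P.n)),
    (∃ k : ℕ, ∀ a b : Fin P.n, b ∈ (fun u : List (Fin P.n) => u.flatMap h)^[k] [a]) ∧
    (∃ (L : List ℕ) (N : ℕ), L ≠ [] ∧ (∀ i ∈ L, 0 < i ∧ i ≤ (2 * P.c + 2) * P.q + 1 ∧ i ≤ N) ∧
      ∀ m, N ≤ m → (fun u : List (Fin P.n) => u.flatMap h)^[m] w =
        (L.map fun i => (fun u : List (Fin P.n) => u.flatMap h)^[m - i] w).flatten) ∧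
    ¬ ∃ (L : List ℕ) (N : ℕ), (∀ i ∈ L, 0 < i ∧ i ≤ (2 * P.c + 2) * P.q) ∧ ∀ m, N ≤ m →
      (fun u : List (Fin P.n) => u.flatMap h)^[m] w =
        (L.map fun i => (fun u : List (Fin P.n) => u.flatMap h)^[m - i] w).flatten := by
  have h1 := P.hp
  have h0 : 0 < P.n := by omega
  have hw : ∀ m, ((fun u : List (Fin P.n) => u.flatMap (hF P h0))^[m]
      [⟨0, h0⟩, ⟨1, by omega⟩]).map Fin.val = om P m := by
    intro m
    rw [val_iter, ← add_zero m, ← iter_om, om, x_lt P 0 h0, x_lt P _ (by omega)]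
    rfl
  have hf : ∀ (m : ℕ) (L : List ℕ), (L.map fun i => (fun u : List (Fin P.n) =>
      u.flatMap (hF P h0))^[m - i] [⟨0, h0⟩, ⟨1, by omega⟩]).flatten.map Fin.val =
      (L.map fun i => om P (m - i)).flatten := by
    intro m L
    rw [List.map_flatten, List.map_map]
    exact congrArg List.flatten (List.map_congr_left fun i _ => hw _)
  refine ⟨hF P h0, [⟨0, h0⟩, ⟨1, by omega⟩], ⟨P.n, fun a b => ?_⟩, ?_, ?_⟩
  · have e := all_mem P a b b.2
    rw [x, Function.iterate_add_apply, ← x, x_lt P a a.2] at e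
    have e2 := val_iter P h0 P.n [a]
    rw [List.map_singleton] at e2
    rw [← e2] at e
    obtain ⟨c, hc, e3⟩ := List.mem_map.1 e
    exact Fin.ext e3 ▸ hc
  · obtain ⟨L, a1, a2, a3⟩ := formula P
    refine ⟨L, _, a1, fun i hi => ⟨(a2 i hi).1, (a2 i hi).2, (a2 i hi).2⟩, fun m hm => ?_⟩
    refine List.map_injective_iff.2 Fin.val_injective ?_
    rw [hw, hf, a3 m hm]
  · rintro ⟨L, N, a1, a2⟩
    refine no_formula P L N a1 fun m hm => ?_
    rw [← hw, a2 m hm, hf]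

theorem result (n : ℕ) (hn : 2 ≤ n) : ∃ (h : Fin n → List (Fin n)) (w : List (Fin n)),
    (∃ k : ℕ, ∀ a b : Fin n, b ∈ (fun u : List (Fin n) => u.flatMap h)^[k] [a]) ∧
    (∃ (L : List ℕ) (N : ℕ), L ≠ [] ∧ (∀ i ∈ L, 0 < i ∧ i ≤ n * (n - 1) + 1 ∧ i ≤ N) ∧
      ∀ m, N ≤ m → (fun u : List (Fin n) => u.flatMap h)^[m] w =
        (L.map fun i => (fun u : List (Fin n) => u.flatMap h)^[m - i] w).flatten) ∧
    ¬ ∃ (L : List ℕ) (N : ℕ), (∀ i ∈ L, 0 < i ∧ i ≤ n * (n - 1)) ∧ ∀ m, N ≤ m →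
      (fun u : List (Fin n) => u.flatMap h)^[m] w =
        (L.map fun i => (fun u : List (Fin n) => u.flatMap h)^[m - i] w).flatten := by
  rcases Nat.even_or_odd' n with ⟨k, rfl | rfl⟩
  · obtain ⟨c, rfl⟩ : ∃ c, k = c + 1 := ⟨k - 1, by omega⟩
    exact main ⟨2 * (c + 1), 0, 1, c, 2 * (c + 1) - 1, rfl, by omega, by omega⟩
  · obtain ⟨c, rfl⟩ : ∃ c, k = c + 1 := ⟨k - 1, by omega⟩
    rw [mul_comm (2 * (c + 1) + 1)]
    exact main ⟨2 * (c + 1) + 1, 1, 0, c, 2 * (c + 1) + 1, rfl, by omega, by omega⟩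

end Pool.Agent.Results.MP_9c356a_lc.QuadraticDepth
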